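import Mathlib
import Pool.Agent.Lib.MP_e8e643_al.Main

set_option autoImplicit false

namespace Pool.Agent.Results.MP_e8e643_al.FewAlgebras

open scoped TensorProduct

universe u

/-- Over `K(α, β)`, `K` algebraically closed of characteristic zero, there are `p + 2` central simple
algebras of degree `p`, killed by `p` in the Brauer group, that have no common splitting field of
degree dividing `p`. -/
theorem result :
    ∀ (p : ℕ), p.Prime → ∀ (K : Type u) [Field K] [CharZero K] [IsAlgClosed K],
      ∃ A : Fin (p + 2) → CSA.{u, u} (FractionRing (MvPolynomial (Fin 2) K)),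
        (∀ i, Module.finrank (FractionRing (MvPolynomial (Fin 2) K)) (A i) = p ^ 2 ∧
          ∃ n : ℕ, Nonempty ((⨂[FractionRing (MvPolynomial (Fin 2) K)] _ : Fin p, A i)
            ≃ₐ[FractionRing (MvPolynomial (Fin 2) K)]
              Matrix (Fin n) (Fin n) (FractionRing (MvPolynomial (Fin 2) K)))) ∧
        ∀ (L : Type u) [Field L] [Algebra (FractionRing (MvPolynomial (Fin 2) K)) L],
          Module.finrank (FractionRing (MvPolynomial (Fin 2) K)) L ∣ p →
          ¬ ∀ i, ∃ n : ℕ, Nonempty (L ⊗[FractionRing (MvPolynomial (Fin 2) K)] A i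
            ≃ₐ[L] Matrix (Fin n) (Fin n) L) := by
  intro p hp K _ _ _
  have : NeZero (p : K) := ⟨Nat.cast_ne_zero.2 hp.ne_zero⟩
  obtain ⟨ζ, hζ⟩ := HasEnoughRootsOfUnity.exists_primitiveRoot K p
  obtain ⟨O, ⟨S⟩⟩ := Pool.Agent.Lib.MP_e8e643_al.exists_setup K hp hζ.pow_eq_one
    (FractionRing (MvPolynomial (Fin 2) K))
  have hinj := ((algebraMap (MvPolynomial (Fin 2) K)
    (FractionRing (MvPolynomial (Fin 2) K))).comp MvPolynomial.C).injective
  refine Pool.Agent.Lib.MP_e8e643_al.main hp ?_ (hζ.map_of_injective hinj) S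
  rw [← map_natCast ((algebraMap (MvPolynomial (Fin 2) K)
    (FractionRing (MvPolynomial (Fin 2) K))).comp MvPolynomial.C)]
  exact (map_ne_zero _).2 (NeZero.ne _)

end Pool.Agent.Results.MP_e8e643_al.FewAlgebras
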